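import Mathlib
import Pool.Agent.Lib.P0c8ca5N.WSum

/-!
# Module KAbel: kernels of blocks, abelian normal subgroups and faithful blocks

PROOFS.
* `card_kernel_ne_zero`: if `(|K| : k) = 0` then `p` divides `|K|` (`CharP.cast_eq_zero_iff`) and there is
  `x ∈ K` of order `p` (Cauchy).  Put `n = ∑_{i < p} single (x ^ i) 1`.  `n * b = p * b = 0`.
  On the other hand `single x 1 * b = b` says that the coefficients of `b` are constant on the
  cosets `⟨x⟩ y`, so `b = n * b'` where `b'` is `b` restricted to a set of representatives of the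
  right cosets `⟨x⟩ y`; so `b = b * b = b * n * b' = n * b * b' = 0` (`b` commutes with `single x 1`, as
  `b` is in the centre).
* `exists_character`: `N` abelian, `p ∤ |N|`, `c` a block of `N`.  For `x ∈ N` the element
  `u = single x 1 * c` satisfies `u ^ m = c` with `m` the order of `x`, prime to `p`; in the finite
  dimensional commutative algebra `fixAlg k N N` (which is all of `kN`), `X ^ m - 1` has `m` distinct
  roots in `k` and `c` is the sum of the orthogonal idempotents
  `c_ζ = m⁻¹ ∑_{j<m} ζ^(-j) single (x^j) 1 * c` (`ζ^m = 1`); `c` is primitive, so `c = c_ζ` for one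
  `ζ` and `single x 1 * c = ζ • c`.  (Or: `l` a character of `fixAlg k N N` with `l c = 1`,
  `PrimIdem.exists_char`; `u - l(u) c` is nilpotent in `fixAlg * c` by locality, and its `p`-power
  argument.)  `χ x := ζ` is multiplicative because `c ≠ 0`.
* `central_of_abelian`: with `χ` from `exists_character`, for `x ∈ N`, `h ∈ A`: conjugating
  `single x 1 * c = χ x • c` with `h` (`cj h c = c`) gives `single (h x h⁻¹) 1 * c = χ x • c`, so
  `single (h * x * h⁻¹ * x⁻¹) 1 * c = c`; multiply with `b` (`b * c = b`, `b` is central):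
  `single (h * x * h⁻¹ * x⁻¹) 1 * b = b`, so `h * x * h⁻¹ * x⁻¹ = 1`.
* `cyclic_of_abelian`: `χ : N →* k` is injective (`χ x = 1` gives `single x 1 * c = c`, then
  `single x 1 * b = b`), and `isCyclic_of_subgroup_isDomain`.
-/

namespace Pool.Agent.Lib.P0c8ca5.Kr

open MonoidAlgebra

variable {p : ℕ} {k : Type*} [Field k] {A : Type*} [Group A]

namespace KAbelAux

/-- `b` absorbs a group element that acts trivially -/
theorem coeff_of_triv {x : A} {b : MonoidAlgebra k A} (h : single x (1 : k) * b = b) (z : A) :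
    b.coeff (x * z) = b.coeff z := by
  have h1 := congrArg (fun a : MonoidAlgebra k A => a.coeff (x * z)) h
  simp only [coeff_single_mul_apply, one_mul] at h1
  rw [inv_mul_cancel_left] at h1
  exact h1.symm

theorem single_mul_assoc' (x y : A) (c : MonoidAlgebra k A) :
    single x (1 : k) * (single y (1 : k) * c) = single (x * y) (1 : k) * c := by
  rw [← mul_assoc, single_mul_single, one_mul]

/-- the component of `c` on which `x` acts with eigenvalue `a` -/
noncomputable def comp (m : ℕ) (x : A) (a : k) (c : MonoidAlgebra k A) : MonoidAlgebra k A :=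
  (m : k)⁻¹ • ∑ i ∈ Finset.range m, (a⁻¹) ^ i • (single (x ^ i) (1 : k) * c)

theorem single_mul_comp {m : ℕ} {x : A} (hx : x ^ m = 1) {a : k} (ha : a ^ m = 1)
    (hm : m ≠ 0) (c : MonoidAlgebra k A) :
    single x (1 : k) * comp m x a c = a • comp m x a c := by
  have ha0 : a ≠ 0 := by
    intro h
    rw [h, zero_pow hm] at ha
    exact zero_ne_one ha
  have hinv : (a⁻¹) ^ m = 1 := by rw [inv_pow, ha, inv_one]
  unfold comp
  rw [mul_smul_comm, smul_comm a]
  congr 1
  rw [Finset.mul_sum, Finset.smul_sum]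
  have h1 : ∀ i ∈ Finset.range m, single x (1 : k) * ((a⁻¹) ^ i • (single (x ^ i) (1 : k) * c))
      = (fun i => a • ((a⁻¹) ^ i • (single (x ^ i) (1 : k) * c))) (i + 1) := by
    intro i _
    change _ = a • ((a⁻¹) ^ (i + 1) • (single (x ^ (i + 1)) (1 : k) * c))
    rw [mul_smul_comm, single_mul_assoc', ← pow_succ', smul_smul]
    congr 1
    rw [pow_succ', ← mul_assoc, mul_inv_cancel₀ ha0, one_mul]
  rw [Finset.sum_congr rfl h1]
  have h2 := Finset.sum_range_succ (fun i => a • ((a⁻¹) ^ i • (single (x ^ i) (1 : k) * c))) m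
  have h3 := Finset.sum_range_succ' (fun i => a • ((a⁻¹) ^ i • (single (x ^ i) (1 : k) * c))) m
  rw [h3] at h2
  have h4 : a • ((a⁻¹) ^ 0 • (single (x ^ 0) (1 : k) * c))
      = a • ((a⁻¹) ^ m • (single (x ^ m) (1 : k) * c)) := by
    rw [pow_zero, pow_zero, hinv, hx]
  rw [h4] at h2
  exact add_right_cancel h2

theorem pow_mul_comp {m : ℕ} {x : A} (hx : x ^ m = 1) {a : k} (ha : a ^ m = 1)
    (hm : m ≠ 0) (c : MonoidAlgebra k A) (i : ℕ) :
    single (x ^ i) (1 : k) * comp m x a c = a ^ i • comp m x a c := by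
  induction i with
  | zero =>
    rw [pow_zero, pow_zero, one_smul]
    exact one_mul _
  | succ i ih =>
    rw [pow_succ', ← single_mul_assoc', ih, mul_smul_comm, single_mul_comp hx ha hm, smul_smul,
      ← pow_succ]

theorem sum_comp {m : ℕ} {x : A} {z : k} (hz : IsPrimitiveRoot z m) (hm : (m : k) ≠ 0)
    (c : MonoidAlgebra k A) : ∑ j ∈ Finset.range m, comp m x (z ^ j) c = c := by
  have hm0 : m ≠ 0 := by
    rintro rfl
    exact hm Nat.cast_zero
  have hz0 : z ≠ 0 := hz.ne_zero hm0
  unfold comp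
  rw [← Finset.smul_sum, Finset.sum_comm]
  have h1 : ∀ i ∈ Finset.range m, ∑ j ∈ Finset.range m,
      ((z ^ j)⁻¹) ^ i • (single (x ^ i) (1 : k) * c)
      = if i = 0 then (m : k) • c else 0 := by
    intro i hi
    rw [← Finset.sum_smul]
    by_cases h0 : i = 0
    · rw [if_pos h0, h0]
      simp only [pow_zero, Finset.sum_const, Finset.card_range, nsmul_eq_mul, mul_one]
      congr 1
      exact one_mul c
    · rw [if_neg h0]
      have h2 : ∑ j ∈ Finset.range m, ((z ^ j)⁻¹) ^ i = 0 := by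
        have h3 : ∀ j ∈ Finset.range m, ((z ^ j)⁻¹) ^ i = ((z ^ i)⁻¹) ^ j := by
          intro j _
          rw [inv_pow, inv_pow, ← pow_mul, ← pow_mul, mul_comm]
        rw [Finset.sum_congr rfl h3]
        have h4 : (z ^ i)⁻¹ ≠ 1 := by
          intro h
          have h5 : z ^ i = 1 := by rw [← inv_inv (z ^ i), h, inv_one]
          have h6 := hz.dvd_of_pow_eq_one i h5
          have h7 := Nat.le_of_dvd (Nat.pos_of_ne_zero h0) h6
          exact absurd (Finset.mem_range.1 hi) (not_lt.2 h7)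
        have h5 : ((z ^ i)⁻¹) ^ m = 1 := by
          rw [inv_pow, ← pow_mul, mul_comm, pow_mul, hz.pow_eq_one, one_pow, inv_one]
        have h6 := geom_sum_mul ((z ^ i)⁻¹) m
        rw [h5, sub_self] at h6
        exact (mul_eq_zero.1 h6).resolve_right (sub_ne_zero.2 h4)
      rw [h2, zero_smul]
  rw [Finset.sum_congr rfl h1, Finset.sum_ite_eq', if_pos (Finset.mem_range.2
    (Nat.pos_of_ne_zero hm0)), smul_smul, inv_mul_cancel₀ hm, one_smul]

theorem comp_mul_self {m : ℕ} {x : A} (hx : x ^ m = 1) {a : k} (ha : a ^ m = 1)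
    (hm : (m : k) ≠ 0) {c : MonoidAlgebra k A} (hcc : c * c = c)
    (hxc : c * single x (1 : k) = single x (1 : k) * c) :
    comp m x a c * comp m x a c = comp m x a c := by
  have hm0 : m ≠ 0 := by
    rintro rfl
    exact hm Nat.cast_zero
  have ha0 : a ≠ 0 := by
    intro h
    rw [h, zero_pow hm0] at ha
    exact zero_ne_one ha
  have hpow : ∀ i : ℕ, c * single (x ^ i) (1 : k) = single (x ^ i) (1 : k) * c := by
    intro i
    induction i with
    | zero =>
      rw [pow_zero]
      exact (mul_one c).trans (one_mul c).symm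
    | succ i ih =>
      have e1 : single (x ^ (i + 1)) (1 : k) = single (x ^ i) (1 : k) * single x (1 : k) := by
        rw [single_mul_single, one_mul, pow_succ]
      rw [e1, ← mul_assoc, ih, mul_assoc, hxc, mul_assoc]
  have hc : c * comp m x a c = comp m x a c := by
    unfold comp
    rw [mul_smul_comm, Finset.mul_sum]
    congr 1
    refine Finset.sum_congr rfl (fun i _ => ?_)
    rw [mul_smul_comm, ← mul_assoc, hpow, mul_assoc, hcc]
  have key : comp m x a c * comp m x a c
      = (m : k)⁻¹ • ∑ i ∈ Finset.range m, comp m x a c := by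
    have e1 : comp m x a c * comp m x a c
        = ((m : k)⁻¹ • ∑ i ∈ Finset.range m, (a⁻¹) ^ i • (single (x ^ i) (1 : k) * c))
          * comp m x a c := rfl
    rw [e1, smul_mul_assoc, Finset.sum_mul]
    congr 1
    refine Finset.sum_congr rfl (fun i _ => ?_)
    rw [smul_mul_assoc, mul_assoc, hc, pow_mul_comp hx ha hm0, smul_smul, ← mul_pow,
      inv_mul_cancel₀ ha0, one_pow, one_smul]
  rw [key, Finset.sum_const, Finset.card_range, ← Nat.cast_smul_eq_nsmul k, smul_smul,
    inv_mul_cancel₀ hm, one_smul]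

theorem comp_mul {m : ℕ} {x : A} {a : k} {c : MonoidAlgebra k A} (hcc : c * c = c) :
    comp m x a c * c = comp m x a c := by
  unfold comp
  rw [smul_mul_assoc, Finset.sum_mul]
  congr 1
  refine Finset.sum_congr rfl (fun i _ => ?_)
  rw [smul_mul_assoc, mul_assoc, hcc]

theorem comp_mem {N : Subgroup A} (hcomm : ∀ x ∈ N, ∀ y ∈ N, x * y = y * x) {m : ℕ} {x : A}
    (hx : x ∈ N) {a : k} {c : MonoidAlgebra k A} (hc : c ∈ fixAlg k N N) :
    comp m x a c ∈ fixAlg k N N := by
  classical
  have h1 : ∀ i : ℕ, single (x ^ i) (1 : k) ∈ fixAlg k N N := by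
    intro i
    have hi : x ^ i ∈ N := N.pow_mem hx i
    refine ⟨?_, ?_⟩
    · intro y hy
      by_cases h : x ^ i = y
      · rw [← h]; exact hi
      · exfalso
        apply hy
        rw [coeff_single, Finsupp.single_apply, if_neg h]
    · intro g hg
      change single g (1 : k) * single (x ^ i) (1 : k) = single (x ^ i) (1 : k) * single g (1 : k)
      rw [single_mul_single, single_mul_single, hcomm g hg _ hi]
  unfold comp
  refine (fixAlg k N N).smul_mem (sum_mem fun i _ => ?_) _
  exact (fixAlg k N N).smul_mem (mul_mem (h1 i) hc) _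

theorem exists_eigen [CharP k p] [IsAlgClosed k] [Finite A] {N : Subgroup A}
    (hcomm : ∀ x ∈ N, ∀ y ∈ N, x * y = y * x) (hp : ¬ p ∣ Nat.card N) {c : MonoidAlgebra k A}
    (hc : IsBlock N c) {x : A} (hx : x ∈ N) : ∃ a : k, single x (1 : k) * c = a • c := by
  have hm : ((Nat.card N : ℕ) : k) ≠ 0 := fun h => hp ((CharP.cast_eq_zero_iff k p _).1 h)
  have hm0 : Nat.card N ≠ 0 := Nat.card_pos.ne'
  have hxm : x ^ Nat.card N = 1 := by
    have h1 : (⟨x, hx⟩ : N) ^ Nat.card N = 1 := pow_card_eq_one'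
    have h2 := congrArg Subtype.val h1
    exact h2
  have hne : NeZero ((Nat.card N : ℕ) : k) := ⟨hm⟩
  obtain ⟨z, hz⟩ := HasEnoughRootsOfUnity.exists_primitiveRoot k (Nat.card N)
  have hzj : ∀ j : ℕ, (z ^ j) ^ Nat.card N = 1 := by
    intro j
    rw [← pow_mul, mul_comm, pow_mul, hz.pow_eq_one, one_pow]
  have hxc : c * single x (1 : k) = single x (1 : k) * c := (hc.mem.2 x hx).eq.symm
  by_contra hno
  have h0 : ∀ j ∈ Finset.range (Nat.card N), comp (Nat.card N) x (z ^ j) c = 0 := by
    intro j _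
    rcases hc.prim _ (comp_mem hcomm hx hc.mem) (comp_mul_self hxm (hzj j) hm hc.idem hxc)
      (comp_mul hc.idem) with h | h
    · exact h
    · exfalso
      apply hno
      refine ⟨z ^ j, ?_⟩
      have h1 := single_mul_comp hxm (hzj j) hm0 c
      rw [h] at h1
      exact h1
  have h1 := sum_comp (x := x) hz hm c
  rw [Finset.sum_congr rfl h0, Finset.sum_const_zero] at h1
  exact hc.ne_zero h1.symm

theorem smul_inj {c : MonoidAlgebra k A} (hc : c ≠ 0) {a b : k} (h : a • c = b • c) : a = b := by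
  by_contra hne
  apply hc
  have h1 : (a - b) • c = 0 := by rw [sub_smul, h, sub_self]
  rcases smul_eq_zero.1 h1 with h2 | h2
  · exact absurd (sub_eq_zero.1 h2) hne
  · exact h2

end KAbelAux

theorem card_kernel_ne_zero [Fact p.Prime] [CharP k p] [Finite A] {K : Subgroup A}
    {b : MonoidAlgebra k A} (hb : b ∈ fixAlg k (⊤ : Subgroup A) ⊤) (hbb : b * b = b)
    (hb0 : b ≠ 0) (hK : ∀ x ∈ K, single x (1 : k) * b = b) : (Nat.card K : k) ≠ 0 := by
  classical
  intro h0
  have hp : p ∣ Nat.card K := (CharP.cast_eq_zero_iff k p _).1 h0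
  obtain ⟨x, hx⟩ := exists_prime_orderOf_dvd_card' (G := K) p hp
  have : Fintype A := Fintype.ofFinite A
  have hP : IsPGroup p (Subgroup.zpowers x) := by
    apply IsPGroup.of_card (n := 1)
    rw [Nat.card_zpowers, hx, pow_one]
  have hx1 : x ≠ 1 := by
    intro h
    rw [h, orderOf_one] at hx
    exact (Fact.out : p.Prime).one_lt.ne hx
  have hinv := (mem_fixAlg.1 hb).2
  apply hb0
  rw [← hbb]
  ext y
  rw [coeff_mul_fin]
  let φ : Subgroup.zpowers x →* Equiv.Perm A :=
    (MulAction.toPermHom A A).comp (K.subtype.comp (Subgroup.zpowers x).subtype)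
  have hφ : ∀ (g : Subgroup.zpowers x) (z : A), φ g z = ((g : K) : A) * z := fun g z => rfl
  rw [sum_eq_sum_fixed (p := p) hP φ (fun z => b.coeff z * b.coeff (z⁻¹ * y)) ?_ ∅ ?_]
  · rw [Finset.sum_empty]
    rfl
  · intro g z
    rw [hφ]
    have h1 := hK _ (g : K).2
    have h2 := hK _ (K.inv_mem (g : K).2)
    rw [KAbelAux.coeff_of_triv h1]
    congr 1
    have e1 : (((g : K) : A) * z)⁻¹ * y
        = z⁻¹ * ((((g : K) : A)⁻¹ * (y * z⁻¹))) * (z⁻¹)⁻¹ := by group
    have e2 : z⁻¹ * y = z⁻¹ * (y * z⁻¹) * (z⁻¹)⁻¹ := by group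
    rw [e1, hinv _ (Subgroup.mem_top _), KAbelAux.coeff_of_triv h2, e2,
      hinv _ (Subgroup.mem_top _)]
  · intro z
    constructor
    · intro h
      exact absurd h (Finset.notMem_empty z)
    · intro h
      exfalso
      have h1 := h ⟨x, Subgroup.mem_zpowers x⟩
      rw [hφ] at h1
      apply hx1
      apply Subtype.ext
      exact mul_eq_right.1 h1

theorem exists_character [Fact p.Prime] [CharP k p] [IsAlgClosed k] [Fintype A] {N : Subgroup A}
    (hcomm : ∀ x ∈ N, ∀ y ∈ N, x * y = y * x) (hp : ¬ p ∣ Nat.card N) {c : MonoidAlgebra k A}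
    (hc : IsBlock N c) : ∃ χ : N →* k, ∀ x : N, single (x : A) (1 : k) * c = χ x • c := by
  have h1 : ∀ x : N, ∃ a : k, single (x : A) (1 : k) * c = a • c :=
    fun x => KAbelAux.exists_eigen hcomm hp hc x.2
  choose f hf using h1
  refine ⟨{ toFun := f, map_one' := ?_, map_mul' := ?_ }, hf⟩
  · apply KAbelAux.smul_inj hc.ne_zero
    rw [← hf 1, one_smul]
    exact one_mul c
  · intro x y
    apply KAbelAux.smul_inj hc.ne_zero
    rw [← hf (x * y)]
    change single ((x : A) * (y : A)) (1 : k) * c = (f x * f y) • c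
    rw [← KAbelAux.single_mul_assoc', hf y, mul_smul_comm, hf x, smul_smul, mul_comm (f y)]

theorem central_of_abelian [Fact p.Prime] [CharP k p] [IsAlgClosed k] [Fintype A]
    {N : Subgroup A} (hN : N.Normal)
    (hcomm : ∀ x ∈ N, ∀ y ∈ N, x * y = y * x) (hp : ¬ p ∣ Nat.card N) {b c : MonoidAlgebra k A}
    (hb : b ∈ fixAlg k (⊤ : Subgroup A) ⊤) (hc : IsBlock N c) (hinv : InvBy (⊤ : Subgroup A) c)
    (hbc : b * c = b) (hfaith : ∀ x : A, single x (1 : k) * b = b → x = 1) :
    N ≤ Subgroup.center A := by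
  obtain ⟨χ, hχ⟩ := exists_character hcomm hp hc
  have hcb : c * b = b := by
    rw [commute_of (K := ⊤) (fun _ _ => Subgroup.mem_top _) (mem_fixAlg.1 hb).2, hbc]
  intro x hx
  rw [Subgroup.mem_center_iff]
  intro h
  have h1 : single (h * x * h⁻¹) (1 : k) * c = χ ⟨x, hx⟩ • c := by
    have e1 := congrArg (cj h) (hχ ⟨x, hx⟩)
    rw [cj_smul, cj_mul, invBy_iff_cj.1 hinv h (Subgroup.mem_top _)] at e1
    have e2 : cj h (single x (1 : k)) = single (h * x * h⁻¹) (1 : k) := by
      rw [cj, single_mul_single, single_mul_single, one_mul, one_mul]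
    rw [← e2]
    exact e1
  have h2 : single (x⁻¹) (1 : k) * c = χ (⟨x, hx⟩⁻¹) • c := hχ (⟨x, hx⟩⁻¹)
  have h3 : single (h * x * h⁻¹ * x⁻¹) (1 : k) * c = c := by
    rw [← KAbelAux.single_mul_assoc', h2, mul_smul_comm, h1, smul_smul, ← map_mul,
      inv_mul_cancel, map_one, one_smul]
  have h4 : single (h * x * h⁻¹ * x⁻¹) (1 : k) * b = b := by
    calc single (h * x * h⁻¹ * x⁻¹) (1 : k) * b
        = single (h * x * h⁻¹ * x⁻¹) (1 : k) * (c * b) := by rw [hcb]
      _ = single (h * x * h⁻¹ * x⁻¹) (1 : k) * c * b := (mul_assoc _ _ _).symm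
      _ = b := by rw [h3, hcb]
  have h5 := hfaith _ h4
  have h6 : h * x * h⁻¹ = x := mul_inv_eq_one.1 h5
  exact mul_inv_eq_iff_eq_mul.1 h6

theorem cyclic_of_abelian [Fact p.Prime] [CharP k p] [IsAlgClosed k] [Fintype A]
    {N : Subgroup A} (hcomm : ∀ x ∈ N, ∀ y ∈ N, x * y = y * x) (hp : ¬ p ∣ Nat.card N)
    {b c : MonoidAlgebra k A}
    (hb : b ∈ fixAlg k (⊤ : Subgroup A) ⊤) (hc : IsBlock N c)
    (hbc : b * c = b) (hfaith : ∀ x : A, single x (1 : k) * b = b → x = 1) :
    IsCyclic N := by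
  obtain ⟨χ, hχ⟩ := exists_character hcomm hp hc
  have hcb : c * b = b := by
    rw [commute_of (K := ⊤) (fun _ _ => Subgroup.mem_top _) (mem_fixAlg.1 hb).2, hbc]
  apply isCyclic_of_injective_ringHom χ
  rw [injective_iff_map_eq_one']
  intro x
  constructor
  · intro h
    have h1 := hχ x
    rw [h, one_smul] at h1
    have h2 : single (x : A) (1 : k) * b = b := by
      calc single (x : A) (1 : k) * b = single (x : A) (1 : k) * c * b := by rw [mul_assoc, hcb]
        _ = b := by rw [h1, hcb]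
    exact Subtype.ext (hfaith _ h2)
  · intro h
    rw [h, map_one]

end Pool.Agent.Lib.P0c8ca5.Kr
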