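import Mathlib
import Pool.Agent.Lib.P0c8ca5.Conj
import Pool.Agent.Lib.P0c8ca5N.WSum

/-!
# Blocks and surjective homomorphisms whose kernel is a p'-group

`π : A →* B` is surjective, `pm π a` is the image of `a ∈ kA` in `kB`, `up π b` is the element of `kA`
with the coefficients `|ker π|⁻¹ * b.coeff (π x)`, and `KT π a` says that `a` is constant on the fibres of
`π`.  `pm π` and `up π` are inverse bijections between the elements of `kA` with `KT` and `kB`, compatible
with products.
-/

namespace Pool.Agent.Lib.P0c8ca5.Kr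

open MonoidAlgebra

variable {p : ℕ} {k : Type*} [Field k] {A B : Type*} [Group A] [Group B]

/-- the image of `a` in `kB` -/
noncomputable def pm (π : A →* B) (a : MonoidAlgebra k A) : MonoidAlgebra k B :=
  MonoidAlgebra.mapDomain π a

/-- `a` is constant on the fibres of `π` -/
def KT (π : A →* B) (a : MonoidAlgebra k A) : Prop := ∀ x y, π x = π y → a.coeff x = a.coeff y

/-- the element of `kA` with coefficients `|ker π|⁻¹ * b.coeff (π x)` -/
noncomputable def up [Finite A] (π : A →* B) (b : MonoidAlgebra k B) : MonoidAlgebra k A :=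
  MonoidAlgebra.ofCoeff (Finsupp.equivFunOnFinite.symm
    (fun x => (Nat.card π.ker : k)⁻¹ * b.coeff (π x)))

theorem coeff_up [Finite A] (π : A →* B) (b : MonoidAlgebra k B) (x : A) :
    (up π b).coeff x = (Nat.card π.ker : k)⁻¹ * b.coeff (π x) := rfl

open Classical in
theorem coeff_pm' [Fintype A] (π : A →* B) (a : MonoidAlgebra k A) (w : B) :
    (pm π a).coeff w = ∑ x, if π x = w then a.coeff x else 0 := by
  have h1 : (pm π a).coeff w = (Finsupp.mapDomain π a.coeff) w := rfl
  rw [h1, Finsupp.mapDomain, Finsupp.sum_apply, Finsupp.sum_fintype]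
  · refine Finset.sum_congr rfl (fun x _ => ?_)
    rw [Finsupp.single_apply]
  · intro x
    rw [Finsupp.single_zero]
    rfl

open Classical in
theorem coeff_pm [Fintype A] (π : A →* B) (a : MonoidAlgebra k A) (n : A) :
    (pm π a).coeff (π n) = ∑ x, if π x = π n then a.coeff x else 0 := coeff_pm' π a (π n)

theorem pm_add (π : A →* B) (a b : MonoidAlgebra k A) : pm π (a + b) = pm π a + pm π b := by
  ext w
  exact DFunLike.congr_fun (Finsupp.mapDomain_add (f := π) (v₁ := a.coeff) (v₂ := b.coeff)) w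

theorem pm_zero (π : A →* B) : pm π (0 : MonoidAlgebra k A) = 0 := by
  ext w
  exact DFunLike.congr_fun (Finsupp.mapDomain_zero (f := π) (M := k)) w

theorem pm_sum (π : A →* B) {ι : Type*} (S : Finset ι) (f : ι → MonoidAlgebra k A) :
    pm π (∑ i ∈ S, f i) = ∑ i ∈ S, pm π (f i) := by
  classical
  induction S using Finset.induction_on with
  | empty => rw [Finset.sum_empty, Finset.sum_empty, pm_zero]
  | insert a S ha ih => rw [Finset.sum_insert ha, Finset.sum_insert ha, pm_add, ih]

theorem pm_mul [Fintype A] [Fintype B] (π : A →* B) (hπ : Function.Surjective π)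
    (a b : MonoidAlgebra k A) : pm π (a * b) = pm π a * pm π b := by
  classical
  ext w
  obtain ⟨n, rfl⟩ := hπ w
  rw [coeff_pm, coeff_mul_fin]
  have h1 : ∀ u : B, (pm π a).coeff u * (pm π b).coeff (u⁻¹ * π n)
      = ∑ y, if π y = u then a.coeff y * (pm π b).coeff ((π y)⁻¹ * π n) else 0 := by
    intro u
    rw [coeff_pm' π a u, Finset.sum_mul]
    refine Finset.sum_congr rfl (fun y _ => ?_)
    by_cases h : π y = u
    · rw [if_pos h, if_pos h, h]
    · rw [if_neg h, if_neg h, zero_mul]
  rw [Finset.sum_congr rfl (fun u _ => h1 u), Finset.sum_comm]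
  have h2 : ∀ y : A, (∑ u : B, if π y = u then a.coeff y * (pm π b).coeff ((π y)⁻¹ * π n) else 0)
      = ∑ x, if π x = π n then a.coeff y * b.coeff (y⁻¹ * x) else 0 := by
    intro y
    rw [Finset.sum_ite_eq, if_pos (Finset.mem_univ _)]
    have e1 : (π y)⁻¹ * π n = π (y⁻¹ * n) := by rw [map_mul, map_inv]
    rw [e1, coeff_pm, Finset.mul_sum]
    refine Fintype.sum_equiv (Equiv.mulLeft y) _ _ (fun x => ?_)
    change (a.coeff y * if π x = π (y⁻¹ * n) then b.coeff x else 0)
      = if π (y * x) = π n then a.coeff y * b.coeff (y⁻¹ * (y * x)) else 0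
    rw [inv_mul_cancel_left, mul_ite, mul_zero]
    have e2 : π x = π (y⁻¹ * n) ↔ π (y * x) = π n := by
      rw [map_mul, map_inv, map_mul, eq_inv_mul_iff_mul_eq]
    simp only [e2]
  rw [Finset.sum_congr rfl (fun y _ => h2 y), Finset.sum_comm]
  refine Finset.sum_congr rfl (fun x _ => ?_)
  by_cases h : π x = π n
  · rw [if_pos h, coeff_mul_fin]
    exact Finset.sum_congr rfl (fun y _ => by rw [if_pos h])
  · rw [if_neg h]
    symm
    exact Finset.sum_eq_zero (fun y _ => by rw [if_neg h])

theorem KT_up [Finite A] (π : A →* B) (b : MonoidAlgebra k B) : KT π (up π b) := by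
  intro x y h
  rw [coeff_up, coeff_up, h]

theorem KT.mul [Fintype A] {π : A →* B} {a : MonoidAlgebra k A} (ha : KT π a)
    (b : MonoidAlgebra k A) : KT π (a * b) := by
  intro x y h
  rw [coeff_mul_fin, coeff_mul_fin]
  refine Fintype.sum_equiv (Equiv.mulLeft (y * x⁻¹)) _ _ (fun z => ?_)
  change a.coeff z * b.coeff (z⁻¹ * x)
    = a.coeff (y * x⁻¹ * z) * b.coeff ((y * x⁻¹ * z)⁻¹ * y)
  have e1 : (y * x⁻¹ * z)⁻¹ * y = z⁻¹ * x := by group
  have e2 : π z = π (y * x⁻¹ * z) := by
    rw [map_mul, map_mul, map_inv, h, mul_inv_cancel, one_mul]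
  rw [e1, ha _ _ e2]

/-- the kernel acts trivially on `c` -/
theorem KT_of_ker {π : A →* B} {c : MonoidAlgebra k A}
    (h : ∀ x, π x = 1 → single x (1 : k) * c = c) : KT π c := by
  intro x y hxy
  have h1 : π (y * x⁻¹) = 1 := by rw [map_mul, map_inv, hxy, mul_inv_cancel]
  have h2 := congrArg (fun a : MonoidAlgebra k A => a.coeff y) (h _ h1)
  simp only [coeff_single_mul_apply, one_mul] at h2
  have e1 : (y * x⁻¹)⁻¹ * y = x := by group
  rw [e1] at h2
  exact h2

theorem card_fibre [Fintype A] (π : A →* B) (n : A) [DecidablePred (fun x => π x = π n)] :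
    (Finset.univ.filter (fun x => π x = π n)).card = Nat.card π.ker := by
  classical
  have : Fintype π.ker := Fintype.ofFinite _
  rw [Nat.card_eq_fintype_card, ← Fintype.card_coe]
  apply Fintype.card_congr
  exact
    { toFun := fun x => ⟨n⁻¹ * x.1, by
        have h1 := (Finset.mem_filter.1 x.2).2
        rw [MonoidHom.mem_ker, map_mul, map_inv, h1, inv_mul_cancel]⟩
      invFun := fun y => ⟨n * y.1, by
        have h1 : π y.1 = 1 := y.2
        rw [Finset.mem_filter, map_mul, h1, mul_one]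
        exact ⟨Finset.mem_univ _, rfl⟩⟩
      left_inv := fun x => Subtype.ext (mul_inv_cancel_left _ _)
      right_inv := fun y => Subtype.ext (inv_mul_cancel_left _ _) }

theorem coeff_pm_of_KT [Fintype A] {π : A →* B} {a : MonoidAlgebra k A} (ha : KT π a) (n : A) :
    (pm π a).coeff (π n) = (Nat.card π.ker : k) * a.coeff n := by
  classical
  rw [coeff_pm, ← Finset.sum_filter]
  have h1 : ∀ x ∈ Finset.univ.filter (fun x => π x = π n), a.coeff x = a.coeff n :=
    fun x hx => ha _ _ (Finset.mem_filter.1 hx).2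
  rw [Finset.sum_congr rfl h1, Finset.sum_const, card_fibre, nsmul_eq_mul]

theorem up_pm [Fintype A] {π : A →* B} (hker : (Nat.card π.ker : k) ≠ 0)
    {a : MonoidAlgebra k A} (ha : KT π a) : up π (pm π a) = a := by
  ext x
  rw [coeff_up, coeff_pm_of_KT ha, inv_mul_cancel_left₀ hker]

theorem pm_up [Fintype A] {π : A →* B} (hπ : Function.Surjective π)
    (hker : (Nat.card π.ker : k) ≠ 0) (b : MonoidAlgebra k B) : pm π (up π b) = b := by
  ext w
  obtain ⟨n, rfl⟩ := hπ w
  rw [coeff_pm_of_KT (KT_up π b), coeff_up, mul_inv_cancel_left₀ hker]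

theorem up_mul [Fintype A] [Fintype B] {π : A →* B} (hπ : Function.Surjective π)
    (hker : (Nat.card π.ker : k) ≠ 0) (a b : MonoidAlgebra k B) :
    up π (a * b) = up π a * up π b := by
  rw [← up_pm hker ((KT_up π a).mul (up π b)), pm_mul π hπ, pm_up hπ hker, pm_up hπ hker]

theorem up_zero [Finite A] (π : A →* B) : up π (0 : MonoidAlgebra k B) = 0 := by
  ext x
  rw [coeff_up]
  exact mul_zero _

theorem pm_inv {π : A →* B} [Fintype A] (hπ : Function.Surjective π) {a : MonoidAlgebra k A}
    (ha : InvBy ⊤ a) : InvBy ⊤ (pm π a) := by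
  classical
  intro g _ w
  obtain ⟨g, rfl⟩ := hπ g
  obtain ⟨n, rfl⟩ := hπ w
  have e1 : π g * π n * (π g)⁻¹ = π (g * n * g⁻¹) := by rw [map_mul, map_mul, map_inv]
  rw [e1, coeff_pm, coeff_pm]
  refine (Fintype.sum_equiv (MulAut.conj g).toEquiv _ _ (fun x => ?_)).symm
  change (if π x = π n then a.coeff x else 0)
    = if π (g * x * g⁻¹) = π (g * n * g⁻¹) then a.coeff (g * x * g⁻¹) else 0
  rw [ha g (Subgroup.mem_top g)]
  have e2 : π (g * x * g⁻¹) = π (g * n * g⁻¹) ↔ π x = π n := by
    rw [map_mul, map_mul, map_mul, map_mul, mul_left_inj, mul_right_inj]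
  simp only [e2]

theorem up_inv [Finite A] (π : A →* B) {b : MonoidAlgebra k B} (hb : InvBy ⊤ b) :
    InvBy ⊤ (up π b) := by
  intro g _ x
  rw [coeff_up, coeff_up, map_mul π, map_mul π, map_inv π, hb _ (Subgroup.mem_top _)]

theorem pm_mem [Fintype A] {π : A →* B} (hπ : Function.Surjective π) {a : MonoidAlgebra k A}
    (ha : a ∈ fixAlg k (⊤ : Subgroup A) ⊤) : pm π a ∈ fixAlg k (⊤ : Subgroup B) ⊤ :=
  mem_fixAlg.2 ⟨fun _ _ => Subgroup.mem_top _, pm_inv hπ (mem_fixAlg.1 ha).2⟩

theorem up_mem [Finite A] (π : A →* B) {b : MonoidAlgebra k B}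
    (hb : b ∈ fixAlg k (⊤ : Subgroup B) ⊤) : up π b ∈ fixAlg k (⊤ : Subgroup A) ⊤ :=
  mem_fixAlg.2 ⟨fun _ _ => Subgroup.mem_top _, up_inv π (mem_fixAlg.1 hb).2⟩

theorem isBlock_pm [Fintype A] [Fintype B] {π : A →* B} (hπ : Function.Surjective π)
    (hker : (Nat.card π.ker : k) ≠ 0) {f : MonoidAlgebra k A} (hf : IsBlock (⊤ : Subgroup A) f)
    (hKT : KT π f) : IsBlock (⊤ : Subgroup B) (pm π f) where
  mem := pm_mem hπ hf.mem
  idem := by rw [← pm_mul π hπ, hf.idem]
  ne_zero := fun h => hf.ne_zero (by rw [← up_pm hker hKT, h, up_zero])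
  prim := fun g hg hgg hgf => by
    have h1 : up π g * f = up π g := by
      calc up π g * f = up π g * up π (pm π f) := by rw [up_pm hker hKT]
        _ = up π g := by rw [← up_mul hπ hker, hgf]
    rcases hf.prim _ (up_mem π hg) (by rw [← up_mul hπ hker, hgg]) h1 with h | h
    · left; rw [← pm_up hπ hker g, h, pm_zero]
    · right; rw [← pm_up hπ hker g, h]

theorem isBlock_up [Fintype A] [Fintype B] {π : A →* B} (hπ : Function.Surjective π)
    (hker : (Nat.card π.ker : k) ≠ 0) {f : MonoidAlgebra k B} (hf : IsBlock (⊤ : Subgroup B) f) :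
    IsBlock (⊤ : Subgroup A) (up π f) where
  mem := up_mem π hf.mem
  idem := by rw [← up_mul hπ hker, hf.idem]
  ne_zero := fun h => hf.ne_zero (by rw [← pm_up hπ hker f, h, pm_zero])
  prim := fun g hg hgg hgf => by
    have hKT : KT π g := by
      have h1 : up π f * g = g := by
        rw [commute_of (K := ⊤) (fun _ _ => Subgroup.mem_top _) (mem_fixAlg.1 hg).2, hgf]
      rw [← h1]
      exact (KT_up π f).mul g
    have h2 : pm π g * f = pm π g := by
      calc pm π g * f = pm π g * pm π (up π f) := by rw [pm_up hπ hker]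
        _ = pm π g := by rw [← pm_mul π hπ, hgf]
    rcases hf.prim _ (pm_mem hπ hg) (by rw [← pm_mul π hπ, hgg]) h2 with h | h
    · left; rw [← up_pm hker hKT, h, up_zero]
    · right; rw [← up_pm hker hKT, h]

end Pool.Agent.Lib.P0c8ca5.Kr
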