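import Mathlib
import Pool.Agent.Lib.P0c8ca5K.KerDef
import Pool.Agent.Lib.P0c8ca5.MainB

/-!
# Module KIrr: irreducible representations and kernels

Near copy of `card_irr_infl` (module P0c8ca5R.Inf1, proved): inflation along
`↥(⊤ : Subgroup A) → ↥(⊤ : Subgroup B)`, `x ↦ π x`.
The kernel of `π` acts trivially on every `ρ` with `act ρ c = 1`: for `x ∈ ker π`,
`ρ x = ρ x ∘ act ρ c = act ρ (single x 1 * c) = act ρ c = 1` (`KT π c` says that
`single x 1 * c = c`).  `act (σ ∘ π) c = act σ (pm π c)` by `coeff_pm` (sum over the fibres).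
-/

namespace Pool.Agent.Lib.P0c8ca5.Kr

open MonoidAlgebra

variable {p : ℕ} {k : Type*} [Field k] {A B : Type*} [Group A] [Group B]

namespace KIrrAux

/-- `π` as a homomorphism between the improper subgroups -/
def prT (π : A →* B) : ↥(⊤ : Subgroup A) →* ↥(⊤ : Subgroup B) where
  toFun x := ⟨π (x : A), Subgroup.mem_top _⟩
  map_one' := Subtype.ext (map_one π)
  map_mul' x y := Subtype.ext (map_mul π (x : A) (y : A))

theorem prT_surj {π : A →* B} (hπ : Function.Surjective π) : Function.Surjective (prT π) := by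
  rintro ⟨w, hw⟩
  obtain ⟨x, rfl⟩ := hπ w
  exact ⟨⟨x, Subgroup.mem_top x⟩, rfl⟩

/-- deflation -/
noncomputable def defl {π : A →* B} (hπ : Function.Surjective π)
    {V : Type*} [AddCommGroup V] [Module k V] (ρ : Representation k (⊤ : Subgroup A) V)
    (h : ∀ x y : (⊤ : Subgroup A), prT π x = prT π y → ρ x = ρ y) :
    Representation k (⊤ : Subgroup B) V where
  toFun w := ρ (Function.surjInv (prT_surj hπ) w)
  map_one' := by
    rw [h _ 1 (by rw [Function.surjInv_eq (prT_surj hπ), map_one]), map_one]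
  map_mul' w w' := by
    rw [← map_mul]
    apply h
    rw [Function.surjInv_eq (prT_surj hπ), map_mul, Function.surjInv_eq (prT_surj hπ),
      Function.surjInv_eq (prT_surj hπ)]

theorem defl_prT {π : A →* B} (hπ : Function.Surjective π)
    {V : Type*} [AddCommGroup V] [Module k V] (ρ : Representation k (⊤ : Subgroup A) V)
    (h : ∀ x y : (⊤ : Subgroup A), prT π x = prT π y → ρ x = ρ y) (x : (⊤ : Subgroup A)) :
    defl hπ ρ h (prT π x) = ρ x :=
  h _ _ (Function.surjInv_eq _ _)

theorem irr_infl {π : A →* B} (hπ : Function.Surjective π)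
    {V : Type*} [AddCommGroup V] [Module k V] {σ : Representation k (⊤ : Subgroup B) V}
    (h : Irr' σ) :
    Irr' (σ.comp (prT π) : Representation k (⊤ : Subgroup A) V) := by
  refine ⟨h.nontriv, fun W hW => h.sub W (fun g w hw => ?_)⟩
  obtain ⟨x, rfl⟩ := prT_surj hπ g
  exact hW x w hw

theorem irr_defl {π : A →* B} (hπ : Function.Surjective π)
    {V : Type*} [AddCommGroup V] [Module k V] {ρ : Representation k (⊤ : Subgroup A) V}
    (h : ∀ x y : (⊤ : Subgroup A), prT π x = prT π y → ρ x = ρ y) (hρ : Irr' ρ) :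
    Irr' (defl hπ ρ h) := by
  refine ⟨hρ.nontriv, fun W hW => hρ.sub W (fun g w hw => ?_)⟩
  have h1 := hW (prT π g) w hw
  rwa [defl_prT] at h1

theorem act_infl [Fintype A] [Fintype B] (π : A →* B)
    {V : Type*} [AddCommGroup V] [Module k V] (σ : Representation k (⊤ : Subgroup B) V)
    {c : MonoidAlgebra k A} :
    act (σ.comp (prT π) : Representation k (⊤ : Subgroup A) V) c = act σ (pm π c) := by
  classical
  have : Fintype (⊤ : Subgroup A) := Fintype.ofFinite _
  have : Fintype (⊤ : Subgroup B) := Fintype.ofFinite _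
  apply LinearMap.ext
  intro v
  rw [act_apply, act_apply]
  have h1 : ∀ w : (⊤ : Subgroup B), (pm π c).coeff (w : B) • σ w v
      = ∑ x : (⊤ : Subgroup A), if prT π x = w then c.coeff (x : A) • σ w v else 0 := by
    intro w
    rw [coeff_pm' π c (w : B), Finset.sum_smul]
    refine (Fintype.sum_equiv Subgroup.topEquiv.toEquiv _ _ fun x => ?_).symm
    show (if prT π x = w then c.coeff (x : A) • σ w v else 0)
      = (if π (x : A) = (w : B) then c.coeff (x : A) else 0) • σ w v
    by_cases h : prT π x = w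
    · have h5 : π (x : A) = (w : B) := congrArg Subtype.val h
      rw [if_pos h, if_pos h5]
    · have h5 : ¬ π (x : A) = (w : B) := fun h' => h (Subtype.ext h')
      rw [if_neg h, if_neg h5, zero_smul]
  rw [Finset.sum_congr rfl fun w _ => h1 w, Finset.sum_comm]
  refine Finset.sum_congr rfl fun x _ => ?_
  rw [Finset.sum_ite_eq, if_pos (Finset.mem_univ _)]
  rfl

theorem act_KT [Fintype A] {π : A →* B} {c : MonoidAlgebra k A} (hKT : KT π c)
    {V : Type*} [AddCommGroup V] [Module k V] (ρ : Representation k (⊤ : Subgroup A) V)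
    (hact : act ρ c = 1) (z : (⊤ : Subgroup A)) (hz : π z = 1) : ρ z = 1 := by
  have : Fintype (⊤ : Subgroup A) := Fintype.ofFinite _
  apply LinearMap.ext
  intro v
  have h1 : act ρ c v = v := by rw [hact]; rfl
  have h2 : ρ z (act ρ c v) = act ρ c v := by
    rw [act_apply, map_sum]
    refine Fintype.sum_equiv (Equiv.mulLeft z) _ _ fun x => ?_
    show ρ z (c.coeff (x : A) • ρ x v) = c.coeff ((z * x : (⊤ : Subgroup A)) : A) • ρ (z * x) v
    rw [map_smul, map_mul]
    have h3 : c.coeff (x : A) = c.coeff ((z * x : (⊤ : Subgroup A)) : A) := by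
      apply hKT
      show π (x : A) = π ((z : A) * (x : A))
      rw [map_mul, hz, one_mul]
    rw [h3]
    rfl
  rw [h1] at h2
  exact h2

end KIrrAux

open KIrrAux

theorem card_irr_pm [Fintype A] [Fintype B] {π : A →* B}
    (hπ : Function.Surjective π) {c : MonoidAlgebra k A} (hKT : KT π c) :
    Nat.card (Quotient (irrInvSetoid (⊤ : Subgroup A) ⊥ c))
      = Nat.card (Quotient (irrInvSetoid (⊤ : Subgroup B) ⊥ (pm π c))) := by
  have htriv : ∀ σ : IrrInv (⊤ : Subgroup A) ⊥ c, ∀ x y : (⊤ : Subgroup A),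
      prT π x = prT π y → σ.ρ x = σ.ρ y := by
    intro σ x y hxy
    have h1 : π ((x⁻¹ * y : (⊤ : Subgroup A)) : A) = 1 := by
      show π ((x : A)⁻¹ * (y : A)) = 1
      have h2 : π (x : A) = π (y : A) := congrArg Subtype.val hxy
      rw [map_mul, map_inv, h2, inv_mul_cancel]
    have h2 := act_KT hKT σ.ρ (act_iff.2 σ.blk) (x⁻¹ * y) h1
    have h4 : y = x * (x⁻¹ * y) := by rw [mul_inv_cancel_left]
    rw [h4, map_mul, h2, mul_one]
  apply Nat.card_congr
  refine
    { toFun := Quotient.map (fun σ => mkIrr (defl hπ σ.ρ (htriv σ))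
          (irr_defl hπ (htriv σ) (irr_iff.1 σ.irr)) (by
            rw [← act_infl π (defl hπ σ.ρ (htriv σ))]
            have h1 : ((defl hπ σ.ρ (htriv σ)).comp (prT π) :
                Representation k (⊤ : Subgroup A) _) = σ.ρ :=
              MonoidHom.ext (fun x => defl_prT hπ σ.ρ (htriv σ) x)
            rw [h1]
            exact act_iff.2 σ.blk)) ?_
      invFun := Quotient.map (fun σ => mkIrr (σ.ρ.comp (prT π) :
            Representation k (⊤ : Subgroup A) _)
          (irr_infl hπ (irr_iff.1 σ.irr)) (by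
            rw [act_infl π]
            exact act_iff.2 σ.blk)) ?_
      left_inv := ?_
      right_inv := ?_ }
  · rintro σ σ' h
    obtain ⟨P, hP⟩ := iso_iff.2 h
    refine iso_iff.1 ⟨P, fun x v => ?_⟩
    obtain ⟨x, rfl⟩ := prT_surj hπ x
    change P (defl hπ σ.ρ (htriv σ) (prT π x) v) = defl hπ σ'.ρ (htriv σ') (prT π x) (P v)
    rw [defl_prT, defl_prT]
    exact hP x v
  · rintro σ σ' h
    obtain ⟨P, hP⟩ := iso_iff.2 h
    exact iso_iff.1 ⟨P, fun x v => hP (prT π x) v⟩
  · intro x
    induction x using Quotient.inductionOn with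
    | _ σ =>
      apply mk_eq_mk.2
      refine ⟨LinearEquiv.refl k _, fun x v => ?_⟩
      change defl hπ σ.ρ (htriv σ) (prT π x) v = σ.ρ x v
      rw [defl_prT]
  · intro x
    induction x using Quotient.inductionOn with
    | _ σ =>
      apply mk_eq_mk.2
      refine ⟨LinearEquiv.refl k _, fun x v => ?_⟩
      obtain ⟨x, rfl⟩ := prT_surj hπ x
      have h5 : ∀ x y : (⊤ : Subgroup A), prT π x = prT π y →
          (σ.ρ.comp (prT π) : Representation k (⊤ : Subgroup A) _) x
            = (σ.ρ.comp (prT π) : Representation k (⊤ : Subgroup A) _) y := by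
        intro x y hxy
        change σ.ρ (prT π x) = σ.ρ (prT π y)
        rw [hxy]
      exact LinearMap.congr_fun
        (defl_prT hπ (σ.ρ.comp (prT π) : Representation k (⊤ : Subgroup A) _) h5 x) v

end Pool.Agent.Lib.P0c8ca5.Kr
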