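import Mathlib
import Pool.Agent.Lib.P0c8ca5.Conj

/-!
# Module KGrp: p-subgroups and surjective homomorphisms with p'-kernel (pure group theory)

PROOFS.
* `exists_lift`: a Sylow p-subgroup `Q` of the preimage `M` of `Q'`: the index of `Q.map π` in `Q'` divides
  the index of `Q` in `M`, prime to `p`, and is a power of `p`, so `Q.map π = Q'`.
* `lift_conj`: `Q` and `Q₂` are Sylow p-subgroups of the preimage `M` of `Q.map π`
  (`|M| = |ker π| * |Q.map π|`, `|Q| = |Q.map π|` as `Q ⊓ ker π = ⊥`), so they are conjugate in `M`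
  (Sylow's theorem for the group `↥M`).
* `map_normalizer`: `≤` is clear.  If `π n` normalizes `Q.map π` then `cg n Q` and `Q` have the same
  image, so `cg n Q = cg g Q` with `π g ∈ Q.map π`, `g = q * z`... directly: `π g = π q` for some
  `q ∈ Q`; `g⁻¹ * n` normalizes `Q`, and so does `q * g⁻¹ * n` (up to order), whose image is `π n`.
* `sum_lift`: let `T` be the set of the p-subgroups `Q` of `A` with `Q.map π = Q'`, and `Q₀` one of them.
  By `lift_conj` every `Q ∈ T` is `cg g Q₀` with `g` in `L =` the preimage of the normalizer of `Q'`,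
  and `L` acts on `T` by conjugation; the stabilizer of `Q` in `L` is `N_A(Q)` (it is contained in `L`).
  So `∑_{Q ∈ T} |N_A(Q)| = |L| = |ker π| * |N_B(Q')|` (`sum_class` in P0c8ca5.Equiv for `H = L`:
  `∑_{Q ∈ T} |L ⊓ N(Q)| = |L|`).
-/

namespace Pool.Agent.Lib.P0c8ca5.Kr

variable {p : ℕ} {A B : Type*} [Group A] [Group B]

namespace KGrpAux

theorem map_cg (π : A →* B) (g : A) (Q : Subgroup A) : (cg g Q).map π = cg (π g) (Q.map π) := by
  ext y
  rw [mem_cg, Subgroup.mem_map, Subgroup.mem_map]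
  constructor
  · rintro ⟨x, hx, rfl⟩
    rw [mem_cg] at hx
    exact ⟨_, hx, by rw [map_mul, map_mul, map_inv]⟩
  · rintro ⟨x, hx, hxy⟩
    refine ⟨g * x * g⁻¹, ?_, ?_⟩
    · rw [mem_cg]
      have e : g⁻¹ * (g * x * g⁻¹) * g = x := by group
      rwa [e]
    · rw [map_mul, map_mul, map_inv, hxy]
      group

theorem inj_of_pGroup [Fact p.Prime] [Finite A] {π : A →* B}
    (hker : ¬ p ∣ Nat.card π.ker) {Q : Subgroup A} (hQ : IsPGroup p Q) {x : A} (hx : x ∈ Q)
    (h1 : π x = 1) : x = 1 := by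
  obtain ⟨k, hk⟩ := hQ ⟨x, hx⟩
  have hk' : x ^ p ^ k = 1 := congrArg Subtype.val hk
  have hd1 : orderOf x ∣ p ^ k := orderOf_dvd_of_pow_eq_one hk'
  have hd2 : orderOf x ∣ Nat.card π.ker := by
    have h2 : orderOf (⟨x, h1⟩ : π.ker) ∣ Nat.card π.ker := orderOf_dvd_natCard _
    have h3 : orderOf (⟨x, h1⟩ : π.ker) = orderOf x := (Subgroup.orderOf_coe (⟨x, h1⟩ : π.ker)).symm
    rwa [h3] at h2
  obtain ⟨j, -, hj⟩ := (Nat.dvd_prime_pow (Fact.out : p.Prime)).1 hd1
  rcases Nat.eq_zero_or_pos j with h0 | h0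
  · rw [h0, pow_zero] at hj
    exact orderOf_eq_one_iff.1 hj
  · exfalso
    apply hker
    refine dvd_trans ?_ hd2
    rw [hj]
    exact dvd_pow_self p h0.ne'

theorem card_comap [Finite A] [Finite B] {π : A →* B} (hπ : Function.Surjective π)
    (S : Subgroup B) : Nat.card (S.comap π) = Nat.card π.ker * Nat.card S := by
  have h1 := (S.comap π).card_mul_index
  have h2 := S.card_mul_index
  have h3 := π.ker.card_mul_index
  rw [Subgroup.index_ker, MonoidHom.range_eq_top.2 hπ, Subgroup.card_top] at h3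
  rw [Subgroup.index_comap_of_surjective S hπ] at h1
  have h4 : S.index ≠ 0 := Subgroup.index_ne_zero_of_finite
  have h5 : Nat.card (S.comap π) * S.index = (Nat.card π.ker * Nat.card S) * S.index := by
    rw [h1, ← h3, mul_assoc, h2]
  exact Nat.eq_of_mul_eq_mul_right (Nat.pos_of_ne_zero h4) h5

end KGrpAux

open KGrpAux

theorem exists_lift [Fact p.Prime] [Finite A] [Finite B] {π : A →* B}
    (hπ : Function.Surjective π) (hker : ¬ p ∣ Nat.card π.ker) {Q' : Subgroup B}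
    (hQ' : IsPGroup p Q') : ∃ Q : Subgroup A, IsPGroup p Q ∧ Q.map π = Q' := by
  let M : Subgroup A := Q'.comap π
  let φ : M →* Q' := π.subgroupComap Q'
  have hφ : Function.Surjective φ := by
    rintro ⟨y, hy⟩
    obtain ⟨x, rfl⟩ := hπ y
    exact ⟨⟨x, hy⟩, rfl⟩
  obtain ⟨P⟩ : Nonempty (Sylow p M) := inferInstance
  have h1 : (P.mapSurjective hφ : Subgroup Q') = ⊤ := by
    symm
    exact (P.mapSurjective hφ).is_maximal' (hQ'.to_subgroup ⊤) le_top
  rw [Sylow.coe_mapSurjective] at h1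
  refine ⟨(P : Subgroup M).map M.subtype, P.isPGroup'.map _, ?_⟩
  rw [Subgroup.map_map]
  have e : π.comp M.subtype = Q'.subtype.comp φ := by
    ext x
    rfl
  rw [e, ← Subgroup.map_map, h1, ← MonoidHom.range_eq_map, Subgroup.range_subtype]

theorem lift_conj [Fact p.Prime] [Finite A] [Finite B] {π : A →* B}
    (hker : ¬ p ∣ Nat.card π.ker) {Q Q₂ : Subgroup A}
    (hQ : IsPGroup p Q) (hQ₂ : IsPGroup p Q₂) (h : Q.map π = Q₂.map π) :
    ∃ g : A, π g ∈ Q.map π ∧ Q₂ = cg g Q := by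
  let M : Subgroup A := (Q.map π).comap π
  have key : ∀ R : Subgroup A, IsPGroup p R → R.map π = Q.map π →
      ∃ S : Sylow p M, (S : Subgroup M) = R.subgroupOf M := by
    intro R hR hRQ
    have hRM : R ≤ M := by
      intro x hx
      show π x ∈ Q.map π
      rw [← hRQ]
      exact Subgroup.mem_map_of_mem π hx
    refine ⟨⟨R.subgroupOf M, ?_, ?_⟩, rfl⟩
    · exact hR.comap_of_injective M.subtype Subtype.val_injective
    · intro P' hP' hle
      apply le_antisymm _ hle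
      intro x hx
      have h1 : π x ∈ R.map π := by
        rw [hRQ]
        exact x.2
      obtain ⟨r, hr, hrx⟩ := h1
      have hrM : (⟨r, hRM hr⟩ : M) ∈ P' := hle (by
        rw [Subgroup.mem_subgroupOf]
        exact hr)
      have h2 : x * (⟨r, hRM hr⟩ : M)⁻¹ ∈ P' := P'.mul_mem hx (P'.inv_mem hrM)
      have h3 : ((x * (⟨r, hRM hr⟩ : M)⁻¹ : M) : A) = 1 := by
        refine inj_of_pGroup hker (hP'.map M.subtype) (Subgroup.mem_map_of_mem M.subtype h2) ?_
        show π ((x : A) * r⁻¹) = 1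
        rw [map_mul, map_inv, hrx, mul_inv_cancel]
      have h4 : (x : A) * r⁻¹ = 1 := h3
      rw [Subgroup.mem_subgroupOf, mul_inv_eq_one.1 h4]
      exact hr
  obtain ⟨S₁, hS₁⟩ := key Q hQ rfl
  obtain ⟨S₂, hS₂⟩ := key Q₂ hQ₂ h.symm
  obtain ⟨g, hg⟩ := MulAction.exists_smul_eq M S₁ S₂
  refine ⟨g, g.2, ?_⟩
  have hQM : Q ≤ M := by
    intro x hx
    exact Subgroup.mem_map_of_mem π hx
  have hQ₂M : Q₂ ≤ M := by
    intro x hx
    show π x ∈ Q.map π
    rw [h]
    exact Subgroup.mem_map_of_mem π hx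
  have hMM : ∀ y : A, y ∈ M → ((g : A)⁻¹ * y * g) ∈ M := fun y hy =>
    M.mul_mem (M.mul_mem (M.inv_mem g.2) hy) g.2
  have hmem : ∀ y : M, y ∈ (S₂ : Subgroup M) ↔ g⁻¹ * y * g ∈ (S₁ : Subgroup M) := by
    intro y
    rw [← hg, Sylow.coe_subgroup_smul, Subgroup.mem_pointwise_smul_iff_inv_smul_mem,
      ← MulAut.conj_inv_apply]
    rfl
  ext y
  rw [mem_cg]
  constructor
  · intro hy
    have h1 := (hmem ⟨y, hQ₂M hy⟩).1 (by
      rw [hS₂, Subgroup.mem_subgroupOf]
      exact hy)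
    rw [hS₁, Subgroup.mem_subgroupOf] at h1
    exact h1
  · intro hy
    have hyM : y ∈ M := by
      have h1 := hQM hy
      have h2 : (g : A) * ((g : A)⁻¹ * y * g) * (g : A)⁻¹ ∈ M :=
        M.mul_mem (M.mul_mem g.2 h1) (M.inv_mem g.2)
      have e : (g : A) * ((g : A)⁻¹ * y * g) * (g : A)⁻¹ = y := by group
      rwa [e] at h2
    have h1 := (hmem ⟨y, hyM⟩).2 (by
      rw [hS₁, Subgroup.mem_subgroupOf]
      exact hy)
    rw [hS₂, Subgroup.mem_subgroupOf] at h1
    exact h1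

theorem map_normalizer [Fact p.Prime] [Finite A] [Finite B] {π : A →* B}
    (hπ : Function.Surjective π) (hker : ¬ p ∣ Nat.card π.ker) {Q : Subgroup A}
    (hQ : IsPGroup p Q) :
    (Subgroup.normalizer (Q : Set A)).map π = Subgroup.normalizer ((Q.map π : Subgroup B) : Set B) := by
  apply le_antisymm
  · rintro _ ⟨x, hx, rfl⟩
    rw [← cg_eq_self_iff, ← map_cg, cg_eq_self_iff.2 hx]
  · intro b hb
    obtain ⟨n, rfl⟩ := hπ b
    rw [← cg_eq_self_iff, ← map_cg] at hb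
    obtain ⟨g, ⟨q, hq, hqg⟩, hg⟩ := lift_conj hker hQ (isPGroup_cg (g := n) hQ) hb.symm
    refine ⟨q * g⁻¹ * n, ?_, ?_⟩
    · show q * g⁻¹ * n ∈ Subgroup.normalizer (Q : Set A)
      rw [← cg_eq_self_iff, ← cg_cg, hg, cg_cg]
      have e : q * g⁻¹ * g = q := by group
      rw [e]
      exact cg_of_mem hq
    · rw [map_mul, map_mul, map_inv, hqg]
      group

theorem sum_lift [Fact p.Prime] [Finite A] [Finite B] {π : A →* B}
    (hπ : Function.Surjective π) (hker : ¬ p ∣ Nat.card π.ker) {Q' : Subgroup B}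
    (hQ' : IsPGroup p Q') (T : Finset (Subgroup A))
    (hT : ∀ Q, Q ∈ T ↔ IsPGroup p Q ∧ Q.map π = Q') :
    ∑ Q ∈ T, Nat.card ↥((⊤ : Subgroup A) ⊓ Subgroup.normalizer (Q : Set A))
      = Nat.card π.ker * Nat.card ↥((⊤ : Subgroup B) ⊓ Subgroup.normalizer (Q' : Set B)) := by
  obtain ⟨Q₀, hQ₀, hQ₀'⟩ := exists_lift hπ hker hQ'
  set L : Subgroup A := (Subgroup.normalizer (Q' : Set B)).comap π with hL
  have hTL : ∀ Q, Q ∈ T ↔ ∃ m ∈ L, Q = cg m Q₀ := by
    intro Q
    rw [hT]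
    constructor
    · rintro ⟨h1, h2⟩
      obtain ⟨g, hg1, hg2⟩ := lift_conj hker hQ₀ h1 (by rw [hQ₀', h2])
      refine ⟨g, ?_, hg2⟩
      rw [hQ₀'] at hg1
      exact Subgroup.le_normalizer hg1
    · rintro ⟨m, hm, rfl⟩
      refine ⟨isPGroup_cg hQ₀, ?_⟩
      rw [map_cg, hQ₀']
      exact cg_eq_self_iff.2 hm
  have h1 := sum_class L Q₀ T hTL
  have h2 : ∀ Q ∈ T, Nat.card ↥((⊤ : Subgroup A) ⊓ Subgroup.normalizer (Q : Set A)) =
      Nat.card ↥(L ⊓ Subgroup.normalizer (Q : Set A)) := by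
    intro Q hQ
    have h3 : Subgroup.normalizer (Q : Set A) ≤ L := by
      intro x hx
      show π x ∈ Subgroup.normalizer (Q' : Set B)
      rw [← cg_eq_self_iff, ← ((hT Q).1 hQ).2, ← map_cg, cg_eq_self_iff.2 hx]
    rw [top_inf_eq, inf_eq_right.2 h3]
  rw [Finset.sum_congr rfl h2, h1, top_inf_eq, hL, card_comap hπ]

end Pool.Agent.Lib.P0c8ca5.Kr
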