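import Mathlib
import Pool.Agent.Lib.P0c8ca5K.KerDef
import Pool.Agent.Lib.P0c8ca5K.KGrp

/-!
# Module KDz: blocks of defect zero and p'-kernels

PROOF of `exists_hasBr_of_pm`.  `exists_lift` (KGrp) gives `P` with `π P = P'`.  There is `w` in the centralizer of `P'` with `(pm π f).coeff w ≠ 0`, `w = π n`.
`P` acts by conjugation on the fibre `{x | π x = π n}` (`π n` is centralized by `P'`) and `f` is invariant,
so by `sum_conj_eq` (P0c8ca5.Basic) applied to `x ↦ if π x = π n then f.coeff x else 0` and `coeff_pm`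
some `x` in the centralizer of `P` has `f.coeff x ≠ 0`: `HasBr P f`.
PROOF of `isDZ_pm_iff`.  `→`: by `exists_hasBr_of_pm`, `P = ⊥`, so `P' = ⊥`.  `←`: let `P` be a p-subgroup of `A` and `x` in its centralizer with `f.coeff x ≠ 0`.  Then `π x`
centralizes `P.map π` and `(pm π f).coeff (π x) = |ker π| * f.coeff x ≠ 0` (`coeff_pm_of_KT`), so
`P.map π = ⊥`, `P ≤ ker π`, and `P = ⊥` because `|ker π|` is prime to `p`
(`hker` and `CharP`: `p ∣ |ker π|` would give `(|ker π| : k) = 0`).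
PROOF of `card_dz_pm`.  `f ↦ pm π f` and `up π` are inverse bijections between the two sets
(`isBlock_pm`, `isBlock_up`, `up_pm`, `pm_up`, `isDZ_pm_iff`); `f * c = f` implies `KT π f` (`f * c = c * f`
by `commute_of`, `KT.mul`).
-/

namespace Pool.Agent.Lib.P0c8ca5.Kr

open MonoidAlgebra

variable {p : ℕ} {k : Type*} [Field k] {A B : Type*} [Group A] [Group B]

namespace KDzAux

theorem not_dvd [Fact p.Prime] [CharP k p] {m : ℕ} (h : (m : k) ≠ 0) : ¬ p ∣ m := fun hd =>
  h ((CharP.cast_eq_zero_iff k p m).2 hd)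

theorem KT_of_mul [Fintype A] {π : A →* B} {c f : MonoidAlgebra k A}
    (hc : c ∈ fixAlg k (⊤ : Subgroup A) ⊤) (hKT : KT π c) (hfc : f * c = f) : KT π f := by
  have h1 : c * f = f := by
    rw [← commute_of (K := (⊤ : Subgroup A)) (fun _ _ => Subgroup.mem_top _) (mem_fixAlg.1 hc).2,
      hfc]
  rw [← h1]
  exact hKT.mul f

end KDzAux

open KDzAux

theorem exists_hasBr_of_pm [Fact p.Prime] [CharP k p] [Fintype A] [Fintype B] {π : A →* B}
    (hπ : Function.Surjective π) (hker : (Nat.card π.ker : k) ≠ 0) {f : MonoidAlgebra k A}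
    (hf : InvBy (⊤ : Subgroup A) f) {P' : Subgroup B} (hP' : IsPGroup p P')
    (hbr : HasBr P' (pm π f)) : ∃ P : Subgroup A, IsPGroup p P ∧ P.map π = P' ∧ HasBr P f := by
  classical
  obtain ⟨P, hP, hPm⟩ := exists_lift hπ (not_dvd (p := p) (k := k) hker) hP'
  refine ⟨P, hP, hPm, ?_⟩
  obtain ⟨w, hw, hwne⟩ := hbr
  obtain ⟨n, rfl⟩ := hπ w
  rw [coeff_pm] at hwne
  have hF : ∀ d ∈ P, ∀ x, (if π (d * x * d⁻¹) = π n then f.coeff (d * x * d⁻¹) else 0)
      = if π x = π n then f.coeff x else 0 := by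
    intro d hd x
    have h1 : π d ∈ P' := by rw [← hPm]; exact Subgroup.mem_map_of_mem π hd
    have h2 : π d * π n = π n * π d := (Subgroup.mem_centralizer_iff.1 hw) _ h1
    have h3 : π (d * x * d⁻¹) = π n ↔ π x = π n := by
      rw [map_mul, map_mul, map_inv, mul_inv_eq_iff_eq_mul, ← h2, mul_right_inj]
    rw [hf d (Subgroup.mem_top d) x]
    simp only [h3]
  have h4 := sum_conj_eq (p := p) hP (fun x => if π x = π n then f.coeff x else 0) hF
    (Finset.univ.filter (fun x => x ∈ Subgroup.centralizer (P : Set A)))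
    (fun x => by rw [Finset.mem_filter]; exact ⟨fun h => h.2, fun h => ⟨Finset.mem_univ _, h⟩⟩)
  rw [h4] at hwne
  obtain ⟨x, hx, hxne⟩ := Finset.exists_ne_zero_of_sum_ne_zero hwne
  refine ⟨x, (Finset.mem_filter.1 hx).2, fun h => hxne ?_⟩
  simp only [h, ite_self]

theorem isDZ_pm_iff [Fact p.Prime] [CharP k p] [Fintype A] [Fintype B] {π : A →* B}
    (hπ : Function.Surjective π) (hker : (Nat.card π.ker : k) ≠ 0) {f : MonoidAlgebra k A}
    (hf : IsBlock (⊤ : Subgroup A) f) (hKT : KT π f) :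
    IsDZ p (⊤ : Subgroup A) f ↔ IsDZ p (⊤ : Subgroup B) (pm π f) := by
  constructor
  · intro h
    refine ⟨isBlock_pm hπ hker hf hKT, fun P' _ hP' hbr => ?_⟩
    obtain ⟨P, hP, hPm, hPbr⟩ := exists_hasBr_of_pm hπ hker (mem_fixAlg.1 hf.mem).2 hP' hbr
    have := h.dz P le_top hP hPbr
    rw [← hPm, this, Subgroup.map_bot]
  · intro h
    refine ⟨hf, fun P _ hP hbr => ?_⟩
    obtain ⟨x, hx, hxne⟩ := hbr
    have h1 : HasBr (P.map π) (pm π f) := by
      refine ⟨π x, ?_, ?_⟩
      · rw [Subgroup.mem_centralizer_iff]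
        rintro _ ⟨y, hy, rfl⟩
        rw [← map_mul, ← map_mul, (Subgroup.mem_centralizer_iff.1 hx) y hy]
      · rw [coeff_pm_of_KT hKT]
        exact mul_ne_zero hker hxne
    have h2 : P.map π = ⊥ := h.dz _ le_top (hP.map π) h1
    have h3 : P ≤ π.ker := by rwa [Subgroup.map_eq_bot_iff] at h2
    by_contra hne
    obtain ⟨m, hm⟩ := IsPGroup.iff_card.1 hP
    have h4 : Nat.card P ∣ Nat.card π.ker := Subgroup.card_dvd_of_le h3
    have h5 : m ≠ 0 := by
      intro h0
      rw [h0, pow_zero] at hm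
      exact hne (Subgroup.card_eq_one.1 hm)
    refine not_dvd (p := p) (k := k) hker (dvd_trans ?_ h4)
    rw [hm]
    exact dvd_pow_self p h5

theorem card_dz_pm [Fact p.Prime] [CharP k p] [Fintype A] [Fintype B] {π : A →* B}
    (hπ : Function.Surjective π) (hker : (Nat.card π.ker : k) ≠ 0) {c : MonoidAlgebra k A}
    (hc : c ∈ fixAlg k (⊤ : Subgroup A) ⊤) (hKT : KT π c) :
    Nat.card {f : MonoidAlgebra k A | IsDZ p (⊤ : Subgroup A) f ∧ f * c = f}
      = Nat.card {f : MonoidAlgebra k B | IsDZ p (⊤ : Subgroup B) f ∧ f * pm π c = f} := by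
  apply Nat.card_congr
  exact
    { toFun := fun f => ⟨pm π f.1, (isDZ_pm_iff hπ hker f.2.1.blk
          (KT_of_mul hc hKT f.2.2)).1 f.2.1, by rw [← pm_mul π hπ, f.2.2]⟩
      invFun := fun f => ⟨up π f.1, (isDZ_pm_iff hπ hker (isBlock_up hπ hker f.2.1.blk)
          (KT_up π f.1)).2 (by rw [pm_up hπ hker]; exact f.2.1), by
          calc up π f.1 * c = up π f.1 * up π (pm π c) := by rw [up_pm hker hKT]
            _ = up π f.1 := by rw [← up_mul hπ hker, f.2.2]⟩
      left_inv := fun f => Subtype.ext (up_pm hker (KT_of_mul hc hKT f.2.2))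
      right_inv := fun f => Subtype.ext (pm_up hπ hker f.1) }

end Pool.Agent.Lib.P0c8ca5.Kr
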