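import Mathlib
import Pool.Agent.Lib.P0c8ca5K.KDz
import Pool.Agent.Lib.P0c8ca5.Official

/-!
# Module KSec: the homomorphism from `N_A(Q)/Q` to `N_B(πQ)/πQ`

PROOFS.
* `rho_surjective`: `map_normalizer` (KGrp).
* `rho_ker`: an element `qm Q n _` of the kernel has `π n = π q`, `q ∈ Q`; `z = n * q⁻¹` is in `ker π` and in
  the normalizer of `Q`, and `qm Q n _ = qm Q z _` (`n⁻¹ z ∈ Q`, as `Q` is normal in its normalizer).
  So the kernel is a homomorphic image of `ker π ⊓ N_A(Q)`, its order divides `|ker π|`; `hker` says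
  that `p` does not divide `|ker π|` (`CharP.cast_eq_zero_iff`).
* `KT_proj`: let `rho (qm Q x _) = rho (qm Q y _)`, i.e. `(π y)⁻¹ * π x = π q₀`, `q₀ ∈ Q` (`qm_eq_iff`).
  By `coeff_proj` the coefficients are the sums of `c` over `x Q` and `y Q`; the bijection
  `x q ↦ y q₀ q` preserves `π`, hence `c.coeff`.
* `pm_proj`: the coefficients at `rho (qm Q n _) = qm _ (π n) _` are the sums of `c` over
  `{x ∈ N_A(Q) | π x ∈ π n π Q}` and over `{x | π x ∈ π n π Q}` (`coeff_pm'`, `coeff_proj`).  `Q` acts by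
  conjugation on both sets (`n` normalizes `Q`), `c` is `Q`-invariant, and the fixed points (the
  elements of the set in the centralizer of `Q`) are the same: `sum_conj_eq` (P0c8ca5.Basic) twice.
* `card_w_map`: `sec ⊤ Q = ⊤` in `NQ Q`; apply `card_dz_pm` (KDz) to `rho π Q` and `proj Q c`
  (`proj_suppIn`, `proj_invBy'`).
-/

namespace Pool.Agent.Lib.P0c8ca5.Kr

open MonoidAlgebra

variable {p : ℕ} {k : Type*} [Field k] {A B : Type*} [Group A] [Group B]

theorem map_mem_normalizer (π : A →* B) {Q : Subgroup A} {n : A}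
    (hn : n ∈ Subgroup.normalizer (Q : Set A)) :
    π n ∈ Subgroup.normalizer ((Q.map π : Subgroup B) : Set B) := by
  have key : ∀ m ∈ Subgroup.normalizer (Q : Set A), ∀ w ∈ Q.map π,
      π m * w * (π m)⁻¹ ∈ Q.map π := by
    rintro m hm _ ⟨x, hx, rfl⟩
    exact ⟨m * x * m⁻¹, (Subgroup.mem_normalizer_iff.1 hm x).1 hx, by
      rw [map_mul, map_mul, map_inv]⟩
  rw [Subgroup.mem_normalizer_iff]
  intro w
  constructor
  · exact key n hn w
  · intro h
    have h1 := key n⁻¹ ((Subgroup.normalizer (Q : Set A)).inv_mem hn) _ h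
    rw [map_inv, inv_inv] at h1
    have e1 : (π n)⁻¹ * (π n * w * (π n)⁻¹) * π n = w := by group
    rwa [e1] at h1

/-- the homomorphism from `N_A(Q)/Q` to `N_B(πQ)/πQ` -/
def rho (π : A →* B) (Q : Subgroup A) : NQ Q →* NQ (Q.map π) :=
  QuotientGroup.map _ _
    ({ toFun := fun n => ⟨π (n : A), map_mem_normalizer π n.2⟩
       map_one' := Subtype.ext (map_one π)
       map_mul' := fun a b => Subtype.ext (map_mul π (a : A) (b : A)) } :
      ↥(Subgroup.normalizer (Q : Set A)) →* ↥(Subgroup.normalizer ((Q.map π : Subgroup B) : Set B)))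
    (fun n hn => by
      rw [Subgroup.mem_comap, Subgroup.mem_subgroupOf]
      exact ⟨n, Subgroup.mem_subgroupOf.1 hn, rfl⟩)

theorem rho_qm (π : A →* B) (Q : Subgroup A) {n : A}
    (hn : n ∈ Subgroup.normalizer (Q : Set A)) :
    rho π Q (qm Q n hn) = qm (Q.map π) (π n) (map_mem_normalizer π hn) := rfl

namespace KSecAux

theorem not_dvd [CharP k p] {m : ℕ} (h : (m : k) ≠ 0) : ¬ p ∣ m :=
  fun h1 => h ((CharP.cast_eq_zero_iff k p m).2 h1)

theorem sec_top (Q : Subgroup A) : sec (⊤ : Subgroup A) Q = ⊤ := by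
  rw [eq_top_iff]
  intro w _
  obtain ⟨n, hn, rfl⟩ := qm_surj w
  exact qm_mem_sec hn (Subgroup.mem_top n)

theorem exists_pre [Fact p.Prime] [Finite A] [Finite B] {π : A →* B}
    (hπ : Function.Surjective π) (hker : ¬ p ∣ Nat.card π.ker) {Q : Subgroup A}
    (hQ : IsPGroup p Q) (w : NQ (Q.map π)) :
    ∃ (n : A) (hn : n ∈ Subgroup.normalizer (Q : Set A)), w = rho π Q (qm Q n hn) := by
  obtain ⟨y, hy, rfl⟩ := qm_surj w
  have h1 : y ∈ (Subgroup.normalizer (Q : Set A)).map π := by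
    rw [map_normalizer hπ hker hQ]
    exact hy
  obtain ⟨n, hn, rfl⟩ := h1
  exact ⟨n, hn, rfl⟩

theorem rho_eq_iff {π : A →* B} {Q : Subgroup A} {x y : A} {hx hy} :
    rho π Q (qm Q x hx) = rho π Q (qm Q y hy) ↔ (π x)⁻¹ * π y ∈ Q.map π := by
  rw [rho_qm, rho_qm, qm_eq_iff]

end KSecAux

open KSecAux

theorem rho_surjective [Fact p.Prime] [Finite A] [Finite B] {π : A →* B}
    (hπ : Function.Surjective π) (hker : ¬ p ∣ Nat.card π.ker) {Q : Subgroup A}
    (hQ : IsPGroup p Q) : Function.Surjective (rho π Q) := by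
  intro w
  obtain ⟨n, hn, h⟩ := exists_pre hπ hker hQ w
  exact ⟨_, h.symm⟩

theorem rho_ker [Fact p.Prime] [CharP k p] [Finite A] [Finite B] {π : A →* B}
    (hker : (Nat.card π.ker : k) ≠ 0) (Q : Subgroup A) : (Nat.card (rho π Q).ker : k) ≠ 0 := by
  intro h0
  have hp : p ∣ Nat.card (rho π Q).ker := (CharP.cast_eq_zero_iff k p _).1 h0
  apply not_dvd (p := p) hker
  refine dvd_trans hp ?_
  let K : Subgroup ↥(Subgroup.normalizer (Q : Set A)) :=
    π.ker.subgroupOf (Subgroup.normalizer (Q : Set A))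
  have h1 : (rho π Q).ker = K.map (QuotientGroup.mk' _) := by
    apply le_antisymm
    · intro w hw
      obtain ⟨n, hn, rfl⟩ := qm_surj w
      rw [MonoidHom.mem_ker, rho_qm, qm_eq_one_iff] at hw
      obtain ⟨q, hq, hqn⟩ := hw
      have hz : n * q⁻¹ ∈ Subgroup.normalizer (Q : Set A) :=
        (Subgroup.normalizer (Q : Set A)).mul_mem hn
          (Subgroup.le_normalizer (Q.inv_mem hq))
      have h2 : qm Q n hn = qm Q (n * q⁻¹) hz := by
        rw [qm_eq_iff, inv_mul_cancel_left]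
        exact Q.inv_mem hq
      rw [h2]
      refine ⟨⟨n * q⁻¹, hz⟩, ?_, rfl⟩
      change n * q⁻¹ ∈ π.ker
      rw [MonoidHom.mem_ker, map_mul, map_inv, ← hqn, mul_inv_cancel]
    · rintro _ ⟨⟨n, hn⟩, hnK, rfl⟩
      change rho π Q (qm Q n hn) = 1
      have h3 : π n = 1 := hnK
      rw [rho_qm, qm_eq_one_iff, h3]
      exact Subgroup.one_mem _
  rw [h1]
  refine dvd_trans (Subgroup.card_dvd_of_surjective _ (MonoidHom.subgroupMap_surjective _ K)) ?_
  exact Subgroup.card_comap_dvd_of_injective _ _ Subtype.val_injective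

theorem KT_proj [Fintype A] [Fintype B] {π : A →* B} {c : MonoidAlgebra k A} (hc : KT π c)
    (Q : Subgroup A) : KT (rho π Q) (proj Q c) := by
  classical
  intro u v huv
  obtain ⟨x, hx, rfl⟩ := qm_surj u
  obtain ⟨y, hy, rfl⟩ := qm_surj v
  obtain ⟨q, hq, hqe⟩ := rho_eq_iff.1 huv
  rw [coeff_proj, coeff_proj]
  refine Fintype.sum_equiv (Equiv.mulLeft (y * q⁻¹ * x⁻¹)) _ _ (fun z => ?_)
  change (if x⁻¹ * z ∈ Q then c.coeff z else 0)
    = if y⁻¹ * (y * q⁻¹ * x⁻¹ * z) ∈ Q then c.coeff (y * q⁻¹ * x⁻¹ * z) else 0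
  have e1 : y⁻¹ * (y * q⁻¹ * x⁻¹ * z) = q⁻¹ * (x⁻¹ * z) := by group
  have e2 : π (y * q⁻¹ * x⁻¹) = 1 := by
    rw [map_mul, map_mul, map_inv, map_inv, hqe]
    group
  have e3 : c.coeff (y * q⁻¹ * x⁻¹ * z) = c.coeff z := by
    apply hc
    rw [map_mul, e2, one_mul]
  rw [e1, e3]
  have e4 : q⁻¹ * (x⁻¹ * z) ∈ Q ↔ x⁻¹ * z ∈ Q := Q.mul_mem_cancel_left (Q.inv_mem hq)
  simp only [e4]

theorem pm_proj [Fact p.Prime] [CharP k p] [Fintype A] [Fintype B] {π : A →* B}
    (hπ : Function.Surjective π) (hker : ¬ p ∣ Nat.card π.ker) {Q : Subgroup A}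
    (hQ : IsPGroup p Q) {c : MonoidAlgebra k A} (hc : InvBy Q c) :
    pm (rho π Q) (proj Q c) = proj (Q.map π) (pm π c) := by
  classical
  ext w
  obtain ⟨n, hn, rfl⟩ := exists_pre hπ hker hQ w
  have hn' := Subgroup.mem_normalizer_iff.1 hn
  let F : A → k := fun x => if (π n)⁻¹ * π x ∈ Q.map π then c.coeff x else 0
  let F' : A → k := fun x => if x ∈ Subgroup.normalizer (Q : Set A) ∧
    (π n)⁻¹ * π x ∈ Q.map π then c.coeff x else 0
  have hL : (pm (rho π Q) (proj Q c)).coeff (rho π Q (qm Q n hn)) = ∑ x, F' x := by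
    rw [coeff_pm]
    have h0 := sum_qm c (fun u => if rho π Q u = rho π Q (qm Q n hn) then (1 : k) else 0)
    refine (Finset.sum_congr rfl (fun u _ => ?_)).trans (h0.trans ?_)
    · by_cases hu : rho π Q u = rho π Q (qm Q n hn)
      · rw [if_pos hu]
        rw [if_pos hu, mul_one]
      · rw [if_neg hu]
        rw [if_neg hu, mul_zero]
    apply Fintype.sum_of_injective (fun y : ↥(Subgroup.normalizer (Q : Set A)) => (y : A))
      Subtype.val_injective
    · intro x hx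
      have h2 : ¬ (x ∈ Subgroup.normalizer (Q : Set A) ∧ (π n)⁻¹ * π x ∈ Q.map π) :=
        fun h => hx ⟨⟨x, h.1⟩, rfl⟩
      change (if x ∈ Subgroup.normalizer (Q : Set A) ∧ (π n)⁻¹ * π x ∈ Q.map π
        then c.coeff x else 0) = 0
      rw [if_neg h2]
    · intro y
      change _ = (if (y : A) ∈ Subgroup.normalizer (Q : Set A) ∧ (π n)⁻¹ * π y ∈ Q.map π
        then c.coeff y else 0)
      have h3 : rho π Q (qm Q (y : A) y.2) = rho π Q (qm Q n hn) ↔
          (π n)⁻¹ * π y ∈ Q.map π := by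
        rw [eq_comm, rho_eq_iff]
      by_cases h : (π n)⁻¹ * π y ∈ Q.map π
      · rw [if_pos (h3.2 h), mul_one, if_pos ⟨y.2, h⟩]
      · rw [if_neg (fun h' => h (h3.1 h')), mul_zero, if_neg (fun h' => h h'.2)]
  have hR : (proj (Q.map π) (pm π c)).coeff (rho π Q (qm Q n hn)) = ∑ x, F x := by
    rw [rho_qm, coeff_proj]
    have h1 : ∀ z : B, (if (π n)⁻¹ * z ∈ Q.map π then (pm π c).coeff z else 0)
        = ∑ x, if π x = z then F x else 0 := by
      intro z
      by_cases hz : (π n)⁻¹ * z ∈ Q.map π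
      · rw [if_pos hz, coeff_pm']
        refine Finset.sum_congr rfl (fun x _ => ?_)
        by_cases hx : π x = z
        · rw [if_pos hx, if_pos hx]
          change _ = if (π n)⁻¹ * π x ∈ Q.map π then c.coeff x else 0
          rw [if_pos (by rw [hx]; exact hz)]
        · rw [if_neg hx, if_neg hx]
      · rw [if_neg hz]
        symm
        refine Finset.sum_eq_zero (fun x _ => ?_)
        by_cases hx : π x = z
        · rw [if_pos hx]
          change (if (π n)⁻¹ * π x ∈ Q.map π then c.coeff x else 0) = 0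
          rw [if_neg (by rw [hx]; exact hz)]
        · rw [if_neg hx]
    rw [Finset.sum_congr rfl (fun z _ => h1 z), Finset.sum_comm]
    refine Finset.sum_congr rfl (fun x _ => ?_)
    rw [Finset.sum_ite_eq, if_pos (Finset.mem_univ _)]
  have hcond : ∀ d ∈ Q, ∀ x, ((π n)⁻¹ * π (d * x * d⁻¹) ∈ Q.map π ↔
      (π n)⁻¹ * π x ∈ Q.map π) := by
    intro d hd x
    have h5 : n⁻¹ * d * n ∈ Q := by
      apply (hn' _).2
      have e2 : n * (n⁻¹ * d * n) * n⁻¹ = d := by group
      rw [e2]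
      exact hd
    have e1 : (π n)⁻¹ * π (d * x * d⁻¹) = π (n⁻¹ * d * n) * ((π n)⁻¹ * π x) * π d⁻¹ := by
      simp only [map_mul, map_inv]
      group
    rw [e1, Subgroup.mul_mem_cancel_right _ (Subgroup.mem_map_of_mem π (Q.inv_mem hd)),
      Subgroup.mul_mem_cancel_left _ (Subgroup.mem_map_of_mem π h5)]
  have hN : ∀ d ∈ Q, ∀ x, (d * x * d⁻¹ ∈ Subgroup.normalizer (Q : Set A) ↔
      x ∈ Subgroup.normalizer (Q : Set A)) := by
    intro d hd x
    have hdN : d ∈ Subgroup.normalizer (Q : Set A) := Subgroup.le_normalizer hd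
    rw [Subgroup.mul_mem_cancel_right _ ((Subgroup.normalizer (Q : Set A)).inv_mem hdN),
      Subgroup.mul_mem_cancel_left _ hdN]
  rw [hL, hR]
  rw [sum_conj_eq (p := p) hQ F' ?_ (Finset.univ.filter
      (fun x => x ∈ Subgroup.centralizer (Q : Set A))) (fun x => by simp),
    sum_conj_eq (p := p) hQ F ?_ (Finset.univ.filter
      (fun x => x ∈ Subgroup.centralizer (Q : Set A))) (fun x => by simp)]
  · refine Finset.sum_congr rfl (fun x hx => ?_)
    have hxC := (Finset.mem_filter.1 hx).2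
    have hxN : x ∈ Subgroup.normalizer (Q : Set A) :=
      Subgroup.centralizer_le_normalizer _ hxC
    change (if x ∈ Subgroup.normalizer (Q : Set A) ∧ (π n)⁻¹ * π x ∈ Q.map π
        then c.coeff x else 0) = if (π n)⁻¹ * π x ∈ Q.map π then c.coeff x else 0
    by_cases h : (π n)⁻¹ * π x ∈ Q.map π
    · rw [if_pos h, if_pos ⟨hxN, h⟩]
    · rw [if_neg h, if_neg (fun h' => h h'.2)]
  · intro d hd x
    change (if (π n)⁻¹ * π (d * x * d⁻¹) ∈ Q.map π then c.coeff (d * x * d⁻¹) else 0)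
      = if (π n)⁻¹ * π x ∈ Q.map π then c.coeff x else 0
    rw [hc d hd x]
    simp only [hcond d hd x]
  · intro d hd x
    change (if d * x * d⁻¹ ∈ Subgroup.normalizer (Q : Set A) ∧
        (π n)⁻¹ * π (d * x * d⁻¹) ∈ Q.map π then c.coeff (d * x * d⁻¹) else 0)
      = if x ∈ Subgroup.normalizer (Q : Set A) ∧ (π n)⁻¹ * π x ∈ Q.map π
        then c.coeff x else 0
    rw [hc d hd x]
    simp only [hcond d hd x, hN d hd x]

theorem card_w_map [Fact p.Prime] [CharP k p] [Fintype A] [Fintype B] {π : A →* B}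
    (hπ : Function.Surjective π) (hker : (Nat.card π.ker : k) ≠ 0) {Q : Subgroup A}
    (hQ : IsPGroup p Q) {c : MonoidAlgebra k A} (hc : c ∈ fixAlg k (⊤ : Subgroup A) ⊤)
    (hKT : KT π c) :
    Nat.card {f : MonoidAlgebra k (NQ Q) | IsDZ p (sec ⊤ Q) f ∧ f * proj Q c = f}
      = Nat.card {f : MonoidAlgebra k (NQ (Q.map π)) |
          IsDZ p (sec ⊤ (Q.map π)) f ∧ f * proj (Q.map π) (pm π c) = f} := by
  classical
  have hk : ¬ p ∣ Nat.card π.ker := not_dvd (p := p) hker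
  have hcI := (mem_fixAlg.1 hc).2
  have hmem : proj Q c ∈ fixAlg k (⊤ : Subgroup (NQ Q)) ⊤ :=
    mem_fixAlg.2 ⟨fun _ _ => Subgroup.mem_top _, by
      have h := proj_invBy' (R := Q) hcI
      rwa [sec_top] at h⟩
  have : Fintype (NQ Q) := Fintype.ofFinite _
  have : Fintype (NQ (Q.map π)) := Fintype.ofFinite _
  rw [sec_top, sec_top, card_dz_pm (rho_surjective hπ hk hQ) (rho_ker hker Q) hmem
    (KT_proj hKT Q), pm_proj hπ hk hQ (hcI.mono le_top)]

end Pool.Agent.Lib.P0c8ca5.Kr
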