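import Mathlib
import Pool.Agent.Lib.P0c8ca5K.KSec
import Pool.Agent.Lib.P0c8ca5K.KIrr
import Pool.Agent.Lib.P0c8ca5K.KAbel
import Pool.Agent.Lib.P0c8ca5P.Fam

/-!
# Module KMain: the blockwise weight conjecture modulo the kernel of a block
-/

namespace Pool.Agent.Lib.P0c8ca5.Kr

open MonoidAlgebra

variable {p : ℕ} {k : Type*} [Field k] {A B : Type*} [Group A] [Group B]

theorem not_dvd_of_cast [CharP k p] {n : ℕ} (h : (n : k) ≠ 0) : ¬ p ∣ n :=
  fun h' => h ((CharP.cast_eq_zero_iff k p n).2 h')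

theorem Ws_pm [Fact p.Prime] [CharP k p] [IsAlgClosed k] [Fintype A] [Fintype B] {π : A →* B}
    (hπ : Function.Surjective π) (hker : (Nat.card π.ker : k) ≠ 0) {c : MonoidAlgebra k A}
    (hc : c ∈ fixAlg k (⊤ : Subgroup A) ⊤) (hKT : KT π c) :
    Fr.Ws p (⊤ : Subgroup A) c = Nat.card π.ker * Fr.Ws p (⊤ : Subgroup B) (pm π c) := by
  classical
  have hker' : ¬ p ∣ Nat.card π.ker := not_dvd_of_cast hker
  unfold Fr.Ws
  rw [Finset.mul_sum, ← Finset.sum_fiberwise_of_maps_to (t := Finset.univ.filter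
    (fun Q : Subgroup B => Q ≤ ⊤ ∧ IsPGroup p Q)) (g := fun Q : Subgroup A => Q.map π)]
  · refine Finset.sum_congr rfl (fun Q' hQ' => ?_)
    rw [Finset.mem_filter] at hQ'
    have h1 : ∀ Q ∈ (Finset.univ.filter (fun Q : Subgroup A => Q ≤ ⊤ ∧ IsPGroup p Q)).filter
        (fun Q => Q.map π = Q'),
        Nat.card ↥((⊤ : Subgroup A) ⊓ Subgroup.normalizer (Q : Set A))
          * Nat.card {f : MonoidAlgebra k (NQ Q) | IsDZ p (sec ⊤ Q) f ∧ f * proj Q c = f}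
        = Nat.card ↥((⊤ : Subgroup A) ⊓ Subgroup.normalizer (Q : Set A))
          * Nat.card {f : MonoidAlgebra k (NQ Q') |
            IsDZ p (sec ⊤ Q') f ∧ f * proj Q' (pm π c) = f} := by
      intro Q hQ
      rw [Finset.mem_filter, Finset.mem_filter] at hQ
      obtain ⟨⟨_, _, h2⟩, h3⟩ := hQ
      subst h3
      rw [card_w_map hπ hker h2 hc hKT]
    rw [Finset.sum_congr rfl h1, ← Finset.sum_mul, sum_lift hπ hker' hQ'.2.2, mul_assoc]
    intro Q
    rw [Finset.mem_filter, Finset.mem_filter]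
    exact ⟨fun h => ⟨h.1.2.2, h.2⟩, fun h => ⟨⟨Finset.mem_univ _, le_top, h.1⟩, h.2⟩⟩
  · intro Q hQ
    rw [Finset.mem_filter] at hQ ⊢
    exact ⟨Finset.mem_univ _, le_top, hQ.2.2.map π⟩

/-- the weight conjecture in terms of the weighted number of weights -/
theorem navarro_iff_Ws [Fact p.Prime] [CharP k p] [IsAlgClosed k] [Fintype A]
    {b : MonoidAlgebra k A} (hb : IsBlock (⊤ : Subgroup A) b) :
    NavarroEq p ⊤ ⊤ b ↔
      Nat.card A * Nat.card (Quotient (irrInvSetoid (⊤ : Subgroup A) ⊥ b)) = Fr.Ws p ⊤ b := by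
  classical
  have hD : ∀ Q : Subgroup A, Q ∈ Finset.univ.filter (fun Q : Subgroup A => Q ≤ ⊤ ∧ IsPGroup p Q)
      ↔ Q ≤ ⊤ ∧ IsPGroup p Q := by
    intro Q
    rw [Finset.mem_filter]
    exact ⟨fun h => h.2, fun h => ⟨Finset.mem_univ _, h⟩⟩
  constructor
  · intro h
    obtain ⟨T, hT1, hT2⟩ := exists_transversal ⊤ (Theta p ⊤ ⊤ b)
    rw [← card_irr_eq, h T hT1 hT2, ← Subgroup.card_top (G := A), sum_DZ_eq hb T hT1 hT2 _ hD]
    rfl
  · intro h T hT1 hT2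
    have h1 := sum_DZ_eq hb T hT1 hT2 _ hD
    rw [card_irr_eq]
    have h2 : Nat.card A * ∑ Q ∈ T, Nat.card (DZ p ⊤ b Q)
        = Nat.card A * Nat.card (Quotient (irrInvSetoid (⊤ : Subgroup A) ⊥ b)) := by
      rw [h, ← Subgroup.card_top (G := A), h1]
      rfl
    exact (Nat.eq_of_mul_eq_mul_left Nat.card_pos h2).symm

theorem navarro_pm [Fact p.Prime] [CharP k p] [IsAlgClosed k] [Fintype A] [Fintype B] {π : A →* B}
    (hπ : Function.Surjective π) (hker : (Nat.card π.ker : k) ≠ 0) {b : MonoidAlgebra k A}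
    (hb : IsBlock (⊤ : Subgroup A) b) (hKT : KT π b) (h : NavarroEq p ⊤ ⊤ (pm π b)) :
    NavarroEq p ⊤ ⊤ b := by
  rw [navarro_iff_Ws hb]
  rw [navarro_iff_Ws (isBlock_pm hπ hker hb hKT)] at h
  rw [Ws_pm hπ hker hb.mem hKT, ← h, ← card_irr_pm hπ hKT, ← mul_assoc]
  congr 1
  rw [← Subgroup.card_mul_index π.ker, Subgroup.index_ker, MonoidHom.range_eq_top.2 hπ,
    Subgroup.card_top]

end Pool.Agent.Lib.P0c8ca5.Kr
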